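import Pool.Agent.Run7.h716.ZW.Defs

/-! Piece POLY of project ZW (helper716, S02384, MP_96de0f_al), proof by helper111. -/

set_option autoImplicit false

open Polynomial Run7.h716.ZW

namespace Run7.h111.ZW

theorem t_POLY : S_POLY := by
  intro c hc
  have hne : c.support.Nonempty := Finsupp.support_nonempty_iff.2 hc
  obtain ⟨i, hi, hle⟩ : ∃ i ∈ c.support, ∀ j ∈ c.support, i ≤ j :=
    ⟨c.support.min' hne, Finset.min'_mem _ _, fun j hj => Finset.min'_le _ _ hj⟩
  refine ⟨∑ j ∈ c.support, monomial (j - i).toNat (c j : ℝ), i, ?_, ?_⟩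
  · rw [finsetSum_coeff, Finset.sum_eq_single i]
    · have h := Finsupp.mem_support_iff.1 hi
      simpa using h
    · intro j hj hne
      rw [coeff_monomial, if_neg]
      intro h
      have h1 := hle j hj
      have h2 := Int.toNat_eq_zero.1 h
      omega
    · intro h
      exact absurd hi h
  · intro F k
    unfold lfR ap
    rw [map_sum, LinearMap.sum_apply, Finset.sum_apply, Finsupp.sum]
    refine Finset.sum_congr rfl fun j hj => ?_
    rw [aeval_monomial, Module.End.mul_apply, Module.algebraMap_end_apply, Pi.smul_apply, sh_pow,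
      smul_eq_mul]
    have h1 := hle j hj
    rw [Int.toNat_of_nonneg (by omega), show k + i + (j - i) = k + j by ring]

end Run7.h111.ZW
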