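import Pool.Agent.Run7.h716.ZW.Defs

/-! Piece RAT of project ZW (helper716, S02384, MP_96de0f_al), second copy, proof by helper111. -/

set_option autoImplicit false

open Polynomial Run7.h716.ZW

namespace Run7.h111.ZW

theorem key_fun (V : Submodule ℚ ℝ) [FiniteDimensional ℚ V] (X : Finset V) :
    ∃ lam : V →ₗ[ℚ] ℚ, ∀ x ∈ X, (x : ℝ) ≠ 0 → 0 < (x : ℝ) * (lam x : ℝ) := by
  classical
  let b := Module.finBasis ℚ V
  let φ : V → (Fin (Module.finrank ℚ V) → ℝ) → ℝ := fun x s => ∑ i, (b.repr x i : ℝ) * s i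
  have hφc : ∀ x, Continuous (φ x) := fun x => by
    simp only [φ]
    fun_prop
  have hφe : ∀ x : V, φ x (fun i => ((b i : V) : ℝ)) = (x : ℝ) := by
    intro x
    have h := congrArg (Subtype.val : V → ℝ) (b.sum_repr x)
    rw [Submodule.coe_sum] at h
    rw [← h]
    simp only [φ]
    refine Finset.sum_congr rfl fun i _ => ?_
    rw [Submodule.coe_smul, Rat.smul_def]
  have hU : IsOpen (⋂ x ∈ X, {s | (x : ℝ) ≠ 0 → 0 < (x : ℝ) * φ x s}) := by
    apply isOpen_biInter_finset
    intro x _
    by_cases hx : (x : ℝ) = 0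
    · have : {s | (x : ℝ) ≠ 0 → 0 < (x : ℝ) * φ x s} = Set.univ := by
        ext s
        simp [hx]
      rw [this]
      exact isOpen_univ
    · have : {s | (x : ℝ) ≠ 0 → 0 < (x : ℝ) * φ x s} = {s | 0 < (x : ℝ) * φ x s} := by
        ext s
        simp [hx]
      rw [this]
      exact isOpen_lt continuous_const (continuous_const.mul (hφc x))
  have hUne : (⋂ x ∈ X, {s | (x : ℝ) ≠ 0 → 0 < (x : ℝ) * φ x s}).Nonempty := by
    refine ⟨fun i => ((b i : V) : ℝ), ?_⟩
    rw [Set.mem_iInter₂]
    intro x _ hx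
    rw [hφe]
    exact mul_self_pos.2 hx
  have hd : DenseRange (fun (t : Fin (Module.finrank ℚ V) → ℚ)
      (i : Fin (Module.finrank ℚ V)) => (t i : ℝ)) :=
    DenseRange.piMap (fun _ => Rat.denseRange_cast)
  obtain ⟨t, ht⟩ := hd.exists_mem_open hU hUne
  refine ⟨b.constr ℚ t, fun x hx hx0 => ?_⟩
  have h1 : (((b.constr ℚ t) x : ℚ) : ℝ) = φ x (fun i => (t i : ℝ)) := by
    rw [Module.Basis.constr_apply_fintype ℚ b t x]
    simp only [φ]
    push_cast
    refine Finset.sum_congr rfl fun i _ => ?_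
    simp [b.equivFun_apply]
  rw [h1]
  exact Set.mem_iInter₂.1 ht x hx hx0

theorem common_den (S : Finset ℤ) (G : ℤ → ℚ) : ∃ N : ℕ, 0 < N ∧ ∀ k ∈ S, ∃ z : ℤ,
    (z : ℚ) = N * G k := by
  classical
  induction S using Finset.induction_on with
  | empty => exact ⟨1, one_pos, by simp⟩
  | insert a S _ ih =>
    obtain ⟨N, hN, h⟩ := ih
    refine ⟨N * (G a).den, Nat.mul_pos hN (G a).den_pos, fun k hk => ?_⟩
    rcases Finset.mem_insert.1 hk with rfl | hk
    · refine ⟨N * (G k).num, ?_⟩
      have h1 := Rat.den_mul_eq_num (G k)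
      push_cast
      rw [mul_assoc, h1]
    · obtain ⟨z, hz⟩ := h k hk
      refine ⟨z * (G a).den, ?_⟩
      push_cast
      rw [hz]
      ring

theorem t_RAT : S_RAT := by
  classical
  intro C F hF
  let V : Submodule ℚ ℝ := Submodule.span ℚ (F '' (F.support : Set ℤ))
  have hfd : FiniteDimensional ℚ V :=
    FiniteDimensional.span_of_finite ℚ (F.support.finite_toSet.image _)
  have hmem : ∀ k, F k ∈ V := by
    intro k
    by_cases h : k ∈ F.support
    · exact Submodule.subset_span ⟨k, h, rfl⟩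
    · rw [Finsupp.notMem_support_iff.1 h]
      exact V.zero_mem
  let f : ℤ → V := fun k => ⟨F k, hmem k⟩
  let xx : (ℤ →₀ ℤ) → ℤ → V := fun c k => ∑ j ∈ c.support, (c j) • f (k + j)
  have hxx : ∀ c k, ((xx c k : V) : ℝ) = lfR c F k := by
    intro c k
    simp only [xx, lfR, Finsupp.sum, Submodule.coe_sum]
    refine Finset.sum_congr rfl fun j _ => ?_
    simp [f]
  obtain ⟨k0, hk0⟩ : ∃ k0, F k0 ≠ 0 := by
    by_contra h
    push Not at h
    exact hF (Finsupp.ext h)
  let K : (ℤ →₀ ℤ) → Finset ℤ := fun c => (c.support ×ˢ F.support).image (fun p => p.2 - p.1)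
  have hK : ∀ c k, k ∉ K c → lfR c F k = 0 := by
    intro c k hk
    unfold lfR
    rw [Finsupp.sum]
    apply Finset.sum_eq_zero
    intro j hj
    have : F (k + j) = 0 := by
      by_contra h
      apply hk
      refine Finset.mem_image.2 ⟨(j, k + j), Finset.mem_product.2 ⟨hj, Finsupp.mem_support_iff.2 h⟩, ?_⟩
      simp
    rw [this, mul_zero]
  let X : Finset V := insert (f k0) (C.biUnion (fun c => (K c).image (xx c)))
  obtain ⟨lam, hlam⟩ := key_fun V X
  obtain ⟨N, hN, hz⟩ := common_den F.support (fun k => lam (f k))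
  have hz' : ∀ k, ∃ z : ℤ, (z : ℚ) = N * lam (f k) ∧ (k ∉ F.support → z = 0) := by
    intro k
    by_cases h : k ∈ F.support
    · obtain ⟨z, hz⟩ := hz k h
      exact ⟨z, hz, fun h' => absurd h h'⟩
    · refine ⟨0, ?_, fun _ => rfl⟩
      have : f k = 0 := Subtype.ext (Finsupp.notMem_support_iff.1 h)
      rw [this, map_zero]
      simp
  choose z hz1 hz2 using hz'
  let F' : ℤ →₀ ℤ := Finsupp.onFinset F.support z (fun k hk => by
    by_contra h
    exact hk (hz2 k h))
  have hF' : ∀ k, F' k = z k := fun k => rfl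
  have hNq : (0 : ℚ) < N := Nat.cast_pos.2 hN
  have hlf : ∀ c k, ((lf c F' k : ℤ) : ℚ) = N * lam (xx c k) := by
    intro c k
    simp only [lf, Finsupp.sum, xx, map_sum, Finset.mul_sum, hF']
    push_cast
    refine Finset.sum_congr rfl fun j _ => ?_
    rw [hz1, map_zsmul, zsmul_eq_mul]
    ring
  refine ⟨F', ?_, ?_⟩
  · intro h
    have h1 := hlam (f k0) (Finset.mem_insert_self _ _) hk0
    have h2 : z k0 = 0 := by
      rw [← hF', h]
      rfl
    have h3 := hz1 k0
    rw [h2] at h3
    have h4 : lam (f k0) = 0 := by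
      have : (N : ℚ) * lam (f k0) = 0 := by rw [← h3]; simp
      rcases mul_eq_zero.1 this with h | h
      · exact absurd h hNq.ne'
      · exact h
    rw [h4] at h1
    simp at h1
  · intro c hc k
    have hsame : lam (xx c k) ≠ 0 → 0 < lfR c F k * ((lam (xx c k) : ℚ) : ℝ) := by
      intro hne
      have hk : k ∈ K c := by
        by_contra h
        have h1 := hK c k h
        rw [← hxx] at h1
        exact hne (by rw [show xx c k = 0 from Subtype.ext h1, map_zero])
      have hX : xx c k ∈ X := Finset.mem_insert_of_mem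
        (Finset.mem_biUnion.2 ⟨c, hc, Finset.mem_image_of_mem _ hk⟩)
      have h0 : ((xx c k : V) : ℝ) ≠ 0 := by
        intro h
        exact hne (by rw [show xx c k = 0 from Subtype.ext h, map_zero])
      have := hlam _ hX h0
      rwa [hxx] at this
    constructor
    · intro h
      have h1 : (0 : ℚ) < N * lam (xx c k) := by
        rw [← hlf]
        exact_mod_cast h
      have h2 : 0 < lam (xx c k) := pos_of_mul_pos_right h1 hNq.le
      have h3 := hsame h2.ne'
      have h4 : (0 : ℝ) < ((lam (xx c k) : ℚ) : ℝ) := by exact_mod_cast h2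
      exact pos_of_mul_pos_left h3 h4.le
    · intro h
      have h1 : N * lam (xx c k) < (0 : ℚ) := by
        rw [← hlf]
        exact_mod_cast h
      have h2 : lam (xx c k) < 0 := by
        by_contra hcon
        push Not at hcon
        exact absurd h1 (not_lt.2 (mul_nonneg hNq.le hcon))
      have h3 := hsame h2.ne
      have h4 : ((lam (xx c k) : ℚ) : ℝ) < 0 := by exact_mod_cast h2
      by_contra hcon
      push Not at hcon
      exact absurd h3 (not_lt.2 (mul_nonpos_of_nonneg_of_nonpos hcon h4.le))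

end Run7.h111.ZW
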